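import Pool.Agent.H39.BD.Final

/-!
Problem MP_8bd86c_an: how many odd cubic steps match programs cut into blocks with at most `r`
products. The number is at most `rho r * m + O(1)`, with equality up to `O(1)` for `r = 2, 3`.
-/

set_option autoImplicit false

namespace Pool.Agent.Results.MP_8bd86c_an.BlockPrograms

open Polynomial Pool.Agent.H38.Sgn Pool.Agent.H39.BD

theorem result (δ : ℝ) (h0 : 0 < δ) (h1 : δ < 1) (r : ℕ) (hr : 2 ≤ r) :
    rho r ≤ 1 - 1 / (2 * r) ∧ ∃ K : ℝ, ∀ m : ℕ, ∃ T : ℕ,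
      IsLeast {T : ℕ | 1 ≤ T ∧ epsComp δ T ≤ eps (BlkOk r) δ m} T ∧
      0 < eps (BlkOk r) δ m ∧ eps (BlkOk r) δ m < 1 ∧
      |(T : ℝ) - Real.logb 2 (Real.log (1 / eps (BlkOk r) δ m))| ≤ K ∧
      T ≤ rho r * m + K ∧
      (r ≤ 3 → rho r * m - K ≤ T) ∧ (4 ≤ r → Real.logb 2 60 / 8 * m - K ≤ T) := by
  refine ⟨rho_le (by omega), ?_⟩
  rcases Nat.lt_or_ge r 4 with hr4 | hr4
  · rcases Nat.lt_or_ge r 3 with hr3 | hr3
    · have : r = 2 := by omega
      subst this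
      obtain ⟨F, hF, hF0, hF1⟩ := exists_F2
      obtain ⟨K, hK0, hK⟩ := blk_general (r := 2) le_rfl (a := 3) (b := 2) (w := 2) (by norm_num)
        (by norm_num) le_rfl hF hF0 hF1 h0 h1
      refine ⟨K, fun m => ?_⟩
      obtain ⟨T, hT, k1, k2, k3, k4, k5⟩ := hK m
      refine ⟨T, hT, k1, k2, k3, k4, fun _ => ?_, fun h => absurd h (by omega)⟩
      have : rho 2 = Real.logb 2 ((3 * 2 : ℕ) : ℝ) / (2 * (2 : ℕ)) := by
        unfold rho
        norm_num
      rw [this]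
      exact k5
    · have : r = 3 := by omega
      subst this
      obtain ⟨F, hF, hF0, hF1⟩ := exists_F3
      obtain ⟨K, hK0, hK⟩ := blk_general (r := 3) (by norm_num) (a := 5) (b := 4) (w := 3)
        (by norm_num) (by norm_num) le_rfl hF hF0 hF1 h0 h1
      refine ⟨K, fun m => ?_⟩
      obtain ⟨T, hT, k1, k2, k3, k4, k5⟩ := hK m
      refine ⟨T, hT, k1, k2, k3, k4, fun _ => ?_, fun h => absurd h (by omega)⟩
      have : rho 3 = Real.logb 2 ((5 * 4 : ℕ) : ℝ) / (2 * (3 : ℕ)) := by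
        unfold rho
        norm_num
      rw [this]
      exact k5
  · obtain ⟨F, hF, hF0, hF1⟩ := exists_F
    obtain ⟨K, hK0, hK⟩ := blk_general (r := r) hr (a := 10) (b := 6) (w := 4)
      (by norm_num) (by norm_num) hr4 hF hF0 hF1 h0 h1
    refine ⟨K, fun m => ?_⟩
    obtain ⟨T, hT, k1, k2, k3, k4, k5⟩ := hK m
    refine ⟨T, hT, k1, k2, k3, k4, fun h => absurd h (by omega), fun _ => ?_⟩
    have : Real.logb 2 60 / 8 = Real.logb 2 ((10 * 6 : ℕ) : ℝ) / (2 * (4 : ℕ)) := by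
      norm_num
    rw [this]
    exact k5

end Pool.Agent.Results.MP_8bd86c_an.BlockPrograms
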