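import Pool.Agent.H38.Sgn.Main

/-!
Problem MP_8bd86c_an, partial answer to Q1: for every fixed `δ`, the least number `T` of composed
odd cubics that matches the best polynomial computable with `m` products is of exact order `m`,
with explicit constants, and equals `log2 ln (1 / ε*_m)` up to a bounded error.
The definitions `epsStar`, `epsComp` (and `I`, `err`, `Prog`, `cubics`, `Comp` behind them) are in
`Pool/Agent/H38/Sgn/Defs.lean`.
-/

namespace Pool.Agent.Results.MP_8bd86c_an.CubicSteps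

open Pool.Agent.H38.Sgn

theorem result (δ : ℝ) (h0 : 0 < δ) (h1 : δ < 1) : ∃ K : ℝ, ∀ m : ℕ, 1 ≤ m → ∃ T : ℕ,
    IsLeast {T : ℕ | 1 ≤ T ∧ epsComp δ T ≤ epsStar δ m} T ∧
    Real.logb 2 60 / 8 * m - K ≤ T ∧ (T : ℝ) ≤ m + K ∧
    |(T : ℝ) - Real.logb 2 (Real.log (1 / epsStar δ m))| ≤ K :=
  main h0 h1

end Pool.Agent.Results.MP_8bd86c_an.CubicSteps
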