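import Pool.Agent.H39.BD.Final

/-!
Problem MP_8bd86c_an: how many odd cubic steps match compositions of `t` arbitrary real
polynomials of degree at most `D`, for every `D ≥ 3`, up to a bounded error.
-/

set_option autoImplicit false

namespace Pool.Agent.Results.MP_8bd86c_an.DegreeSteps

open Polynomial Pool.Agent.H38.Sgn Pool.Agent.H39.BD

theorem result (δ : ℝ) (h0 : 0 < δ) (h1 : δ < 1) (D : ℕ) (hD : 3 ≤ D) :
    ∃ K : ℝ, ∀ t : ℕ, ∃ T : ℕ,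
      IsLeast {T : ℕ | 1 ≤ T ∧ epsComp δ T ≤ eps (DegOk D) δ t} T ∧
      0 < eps (DegOk D) δ t ∧ eps (DegOk D) δ t < 1 ∧
      |Real.logb 2 (Real.log (1 / eps (DegOk D) δ t)) -
        t / 2 * Real.logb 2 (((D + 1) ^ 2 / 4 : ℕ) : ℝ)| ≤ K ∧
      |(T : ℝ) - t / 2 * Real.logb 2 (((D + 1) ^ 2 / 4 : ℕ) : ℝ)| ≤ K :=
  deg_main hD h0 h1

end Pool.Agent.Results.MP_8bd86c_an.DegreeSteps
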